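import Pool.Agent.Q105.FJ.RBrun

/-!
# Groups with Brunnian relators indexed by a relational structure, and their extensions

`Closed C` (`Pool.Agent.Y462.SS.Base`): the class `C` of groups contains `ℤ` and is closed under
groups that embed, finite products, free products, overgroups of finite index and colimits of directed
systems with arbitrary structure maps.  `ExtClosed C` (`Pool.Agent.Q152.WP.Perm`): if `G` maps onto a
group `Q` of `C`, and the kernel and the preimages of all infinite cyclic subgroups of `Q` are in `C`,
then `G` is in `C`.  All these properties are known for the class of the groups which satisfy the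
Farrell–Jones conjecture for A-theory with coefficients and finite wreath products.

`RStr I ar V` is the set of the relational structures on the set `V`, for the signature with one
relation of arity `ar i` for every `i` in `I`.  Let `P` be a group and let `w i`, for `i` in `I`, be an
element of the free product of `ar i` copies of `P` which is Brunnian (`Brun`): it becomes trivial if
one kills any one of the copies of `P`.  `BG w r` is the quotient of the free product of copies `P v` of
`P`, one for each `v` in `V`, by the relators `w i (x)` (`w i` written in the copies
`P (x 0), …, P (x (ar i - 1))`), for all `i` and all tuples `x` in the relation `r i`.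

Examples: graph products of copies of a group; Artin groups, Coxeter groups and Shephard groups with
even labels (relators `(a b)^n = (b a)^n` and `a^n`); groups with higher commutators as relators, given
by hypergraphs.

The proof: the groups are functors of the structure, injective on embeddings since full substructures
are retracts; for an automorphism `σ` of the structure the HNN extensions of the groups of the finite
substructures `S` along `S ∩ σ⁻¹ S` embed in semidirect products of free groups with groups of the
class, because the partial automorphism of `S` extends to an automorphism of finite order of another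
structure that contains `S`.
-/

set_option autoImplicit false

namespace Pool.Agent.Results.MP_63c928_gt.BrunnianPresentations

open Pool.Agent.Y462.SS Pool.Agent.Q152.WP Pool.Agent.Q105.FJ

/-- The groups of the finite structures are in the class. -/
def FinIn (C : ∀ (G : Type) [Group G], Prop) {I : Type} {ar : I → ℕ} {P : Type} [Group P]
    (w : ∀ i, FPr (Fin (ar i)) P) : Prop :=
  ∀ (V : Type) [Finite V] (r : RStr I ar V), C (BG w r)

/-- The conjugation by `g` is on the subgroup `BG w r` the composition of the automorphism induced by an
automorphism `σ` of the structure `r` and an inner automorphism. -/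
def Induced {I : Type} {ar : I → ℕ} {P : Type} [Group P] (w : ∀ i, FPr (Fin (ar i)) P) {V : Type}
    (r : RStr I ar V) {G : Type} [Group G] (ι : BG w r →* G) (g : G) : Prop :=
  ∃ (n : BG w r) (σ : Equiv.Perm V) (hσ : RFun.IsAut r σ),
    ∀ x, g * ι x * g⁻¹ = ι (n * BG.map w σ (fun i x h => (hσ i x).2 h) x * n⁻¹)

/-- All extensions of groups of the class by the groups `BG w r`, such that the elements of infinite
order of the quotient act by automorphisms of the structure, up to inner automorphisms, are in the
class. -/
def ExtIn (C : ∀ (G : Type) [Group G], Prop) {I : Type} {ar : I → ℕ} {P : Type} [Group P]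
    (w : ∀ i, FPr (Fin (ar i)) P) : Prop :=
  ∀ (V : Type) (r : RStr I ar V) (G Q : Type) [Group G] [Group Q] (f : G →* Q)
    (ι : BG w r →* G), Function.Surjective f → Function.Injective ι → ι.range = f.ker → C Q →
    (∀ g : G, ¬ IsOfFinOrder (f g) → Induced w r ι g) → C G

/-- Examples of Brunnian elements: the elements of one copy of `P`; the relators `(a b)^n = (b a)^n` of
the even Artin groups; the commutators of two elements `a`, `b` such that killing any one of the copies
kills `a` or `b`. -/
def Examples (P : Type) [Group P] : Prop :=
  (∀ p : P, Brun (vof P (0 : Fin 1) p)) ∧
  (∀ (p q : P) (n : ℕ), Brun ((vof P (0 : Fin 2) p * vof P (1 : Fin 2) q) ^ n *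
    ((vof P (1 : Fin 2) q * vof P (0 : Fin 2) p) ^ n)⁻¹)) ∧
  ∀ (U : Type) (a b : FPr U P), (∀ j, kill P j a = 1 ∨ kill P j b = 1) →
    Brun (a * b * a⁻¹ * b⁻¹)

/-- **Groups with Brunnian relators indexed by a relational structure, and their extensions.** -/
theorem result :
    (∀ (C : ∀ (G : Type) [Group G], Prop), Closed C → ExtClosed C →
      ∀ (I : Type) (ar : I → ℕ) (P : Type) [Group P] (w : ∀ i, FPr (Fin (ar i)) P),
        (∀ i, Brun (w i)) → FinIn C w → ExtIn C w) ∧
    ∀ (P : Type) [Group P], Examples P := by
  refine ⟨fun C hC hE I ar P _ w hw hfin => ?_, fun P _ => ⟨brun_one, brun_even, ?_⟩⟩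
  · intro V r G Q _ _ f ι hf hι hker hQ h
    exact RFun.kernel_mem (bFun w hw) r hC hE hfin f hf hQ ι hι hker h
  · exact fun U a b h => brun_comm a b h

end Pool.Agent.Results.MP_63c928_gt.BrunnianPresentations
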