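import Pool.Agent.Q105.FJ.Cox

/-!
# Coxeter groups of any rank and their diagram automorphisms

`Closed C` (`Pool.Agent.Y462.SS.Base`): the class `C` of groups contains `ℤ` and is closed under
groups that embed, finite products, free products, overgroups of finite index and colimits of directed
systems with arbitrary structure maps.  `ExtClosed C` (`Pool.Agent.Q152.WP.Perm`): if `G` maps onto a
group `Q` of `C`, and the kernel and the preimages of all infinite cyclic subgroups of `Q` are in `C`,
then `G` is in `C`.  All these properties are known for the class of the groups which satisfy the
Farrell–Jones conjecture for A-theory with coefficients and finite wreath products, and so is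
`FiniteRank`: the Coxeter groups of finite rank are CAT(0) groups (Moussong).

The Coxeter groups are the `M.Group` of Mathlib, for a Coxeter matrix `M` on a set `B` of any size;
the entry `0` stands for `∞`.  The group `M.Group` has the generators `M.simple i`, for `i` in `B`, and
the relations `(s_i s_j)^(M i j) = 1`.

The proof: the Coxeter group is a functor of the diagram, injective on the embeddings of diagrams (by
the geometric representation, for sets of generators of any size); for an automorphism `σ` of the
diagram the HNN extensions of the finite parabolic subgroups `W_S` along `W_{S ∩ σ⁻¹ S}` embed in the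
semidirect products of free groups with groups of the class, because the partial automorphism of the
diagram of `S` extends to an automorphism of finite order of another diagram that contains `S`.
-/

set_option autoImplicit false

namespace Pool.Agent.Results.MP_63c928_gt.CoxeterAutomorphisms

open Pool.Agent.Y462.SS Pool.Agent.Q152.WP Pool.Agent.Q105.FJ

/-- The Coxeter groups of finite rank are in the class. -/
def FiniteRank (C : ∀ (G : Type) [Group G], Prop) : Prop :=
  ∀ (B : Type) [Finite B] (M : CoxeterMatrix B), C M.Group

/-- The conjugation by `g` is on the Coxeter group the composition of a diagram automorphism `σ` and an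
inner automorphism. -/
def Diagram {B : Type} (M : CoxeterMatrix B) {G : Type} [Group G] (ι : M.Group →* G) (g : G) :
    Prop :=
  ∃ (n : M.Group) (σ : Equiv.Perm B), (∀ i j, M (σ i) (σ j) = M i j) ∧
    ∀ i, g * ι (M.simple i) * g⁻¹ = ι (n * M.simple (σ i) * n⁻¹)

/-- **Coxeter groups of any rank and their diagram automorphisms.** -/
theorem result (C : ∀ (G : Type) [Group G], Prop) (hC : Closed C) (hE : ExtClosed C)
    (hF : FiniteRank C) (B : Type) (M : CoxeterMatrix B) (G Q : Type) [Group G] [Group Q]
    (f : G →* Q) (ι : M.Group →* G) (hf : Function.Surjective f) (hι : Function.Injective ι)
    (hker : ι.range = f.ker) (hQ : C Q)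
    (h : ∀ g : G, ¬ IsOfFinOrder (f g) → Diagram M ι g) : C G :=
  CX.kernel_mem hC hE hF M f hf hQ ι hι hker h

end Pool.Agent.Results.MP_63c928_gt.CoxeterAutomorphisms
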