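import Pool.Agent.Q152.TC.Split

/-!
# Graphs of CAT(0) groups and similar groups with virtually cyclic edge groups

`Closed C` (`Pool.Agent.Y462.SS.Base`): the class `C` of groups contains `ℤ` and is closed under
groups that embed, finite products, free products, overgroups of finite index and colimits of directed
systems.  `ExtClosed C` (`Pool.Agent.Q152.WP.Perm`): if `G` maps onto a group `Q` of `C`, and the
kernel and the preimages of all infinite cyclic subgroups of `Q` are in `C`, then `G` is in `C`.
`HasSolvable C`: solvable groups are in `C`.
`TreeClosed C` (`Pool.Agent.Q152.TC.Cent`): the class `C` contains the finitely generated groups `H` which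
act on a tree with finitely many orbits of edges, such that for some normal subgroup `N` acting trivially
the action of `H / N` is acylindrical, and such that the vertex stabilizers and the preimages of all
cyclic subgroups of `H / N` are in `C`.

`St Γ x y`: the intersection of the stabilizers of `x` and `y`.  `VCyc K`: the subgroup `K` has a cyclic
subgroup of finite index.  `Bal c`: if `c ^ p` and `c ^ q` are conjugate, `p ≠ 0`, then `q = p` or
`q = -p`.  `VCent c`: the group of the elements which commute with a power `c ^ n`, `n ≠ 0`.
`VSplit c K`: some homomorphism from `VCent c ⊓ K` to the rational numbers is not zero at some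
power of `c`.  For example, if `K` acts on a CAT(0) space so that `c` is a hyperbolic isometry, the
translation in the direction of the axis of `c` is a homomorphism from `VCent c ⊓ K` to the real numbers
which is not zero at `c`, and one composes it with a linear map from the real numbers to the
rational numbers.  `SplitGroup G`: `VSplit c ⊤` holds for all elements `c` of infinite order of `G`.

Proof.  By the theorem on the tree of cylinders (`main`) it remains to show that the commensurator `L`
of `c` is in `C`, if `c` is an element of infinite order of an edge stabilizer which is not
balanced.  The group `L` acts on the cylinder of `c`, the subtree of the edges whose stabilizer contains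
a power of `c`.  The stabilizers `L_v` have the series of the subgroups `M1_v = VCent c ∩ L_v` and
`M2_v`, the intersection of the kernels of all homomorphisms from `M1_v` to the rational numbers.  Its
factors are commutative, because `L_v / M1_v` acts by rational numbers on `c`.  If `c` is split, then for
adjacent `v` and `w` both `M2_v ∩ L_w` and `M2_w ∩ L_v` are the torsion elements of the virtually
cyclic group `M1_v ∩ M1_w`.  So by the theorem on compatible series (`series`) there is a
homomorphism from `L` to a group of `C` whose kernel meets `L_v` in `M2_v`, so it meets the edge
stabilizers in finite groups.  The preimages of the cyclic subgroups act on the cylinder, and the elements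
of infinite order of the edge stabilizers are balanced in them, so `main` applies to these preimages.
For (2), let `c` be an element of infinite order.  If no power of `c` fixes a vertex, the Busemann
function of the attracting end of `c` gives the homomorphism.  Otherwise `VCent c` acts on the subtree of
the vertices which are fixed by powers of `c`, the homomorphisms on the stabilizers are normalized by their values
at the powers of `c`, so they agree on the edge stabilizers, and they extend to `VCent c`.
-/

set_option autoImplicit false

namespace Pool.Agent.Results.MP_63c928_gt.SplitCentralizers

open Pool.Agent.Y462.SS Pool.Agent.Q152.WP Pool.Agent.Q152.TC Pool.Agent.Q91.FJ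

/-- Let `C` be a class of groups with the closure properties `Closed C`, `ExtClosed C` and
`TreeClosed C` which contains the solvable groups, and let the group `Γ` act on a tree by graph
automorphisms (with or without inversions, with any number of orbits), with virtually cyclic
edge stabilizers.

(1) Suppose that each element `c` of infinite order of an edge stabilizer is balanced, or
for each vertex `v` fixed by a power `c ^ j`, `j ≠ 0`, some homomorphism to the rational numbers from the
group of the elements of the stabilizer of `v` which commute with a power of `c` is not zero at a power of
`c`.  Then `Γ` is in `C` if and only if the vertex stabilizers are in `C`.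

(2) If all vertex stabilizers are split groups, then `Γ` is a split group, and `Γ` is in `C` if and only
if the vertex stabilizers are in `C`.  So the class of the split groups of `C` is closed under fundamental
groups of graphs of groups with virtually cyclic edge groups. -/
theorem result (C : ∀ (G : Type) [Group G], Prop) (hC : Closed C) (hE : ExtClosed C)
    (hS : HasSolvable C) (hA : TreeClosed C)
    (V Γ : Type) [Group Γ] [MulAction Γ V] (T : SimpleGraph V) (hT : T.IsTree)
    (hadj : ∀ (γ : Γ) (x y : V), T.Adj x y → T.Adj (γ • x) (γ • y))
    (hvc : ∀ x y : V, T.Adj x y → VCyc (St Γ x y)) :
    ((∀ x y : V, T.Adj x y → ∀ c ∈ St Γ x y, ¬ IsOfFinOrder c →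
      Bal c ∨ ∀ (v : V) (j : ℤ), j ≠ 0 → c ^ j • v = v → VSplit c (MulAction.stabilizer Γ v)) →
      (C Γ ↔ ∀ v : V, C (MulAction.stabilizer Γ v))) ∧
    ((∀ v : V, SplitGroup (MulAction.stabilizer Γ v)) →
      SplitGroup Γ ∧ (C Γ ↔ ∀ v : V, C (MulAction.stabilizer Γ v))) := by
  have h1 : (∀ x y : V, T.Adj x y → ∀ c ∈ St Γ x y, ¬ IsOfFinOrder c →
      Bal c ∨ ∀ (v : V) (j : ℤ), j ≠ 0 → c ^ j • v = v → VSplit c (MulAction.stabilizer Γ v)) →
      (C Γ ↔ ∀ v : V, C (MulAction.stabilizer Γ v)) := by
    intro hsplit
    refine ⟨fun h v => hC.of_injective _ _ (MulAction.stabilizer Γ v).subtype
      (MulAction.stabilizer Γ v).subtype_injective h, fun hv => ?_⟩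
    refine main hC hS hA hT hadj hvc hv ?_
    intro x y hxy c hc hc' hb
    exact cmm_split hvc hadj hC hE hS hA hT hv ⟨(x, y), hxy⟩ hc hc'
      ((hsplit x y hxy c hc hc').resolve_left hb)
  refine ⟨h1, fun hsp => ⟨split_all hT hadj hvc hsp, h1 ?_⟩⟩
  intro x y _ c _ hc'
  exact Or.inr (fun v j hj hv => vsplit_of_group (hsp v) hc' hj hv)

end Pool.Agent.Results.MP_63c928_gt.SplitCentralizers
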