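import Pool.Agent.Q152.EM.Family

/-!
# Embedding Farrell–Jones groups in Farrell–Jones groups with two generators

`Closed C` (`Pool.Agent.Y462.SS.Base`): the class `C` of groups contains `ℤ` and is closed under
groups that embed, finite products, free products, overgroups of finite index and colimits of directed
systems.  `ExtClosed C`: if `G` maps onto a group `Q` of `C`, and the kernel and the preimages of all
infinite cyclic subgroups of `Q` are in `C`, then `G` is in `C`.  `Metab G`: the commutators of `G`
commute, i.e. `G` is metabelian.

The class of the groups which satisfy the Farrell–Jones conjecture for `A`-theory with coefficients and
finite wreath products has these closure properties and contains all solvable groups (Enkelmann, Lück,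
Pieper, Ullmann and Winges).

Proof.  Let `E` be the group of the pairs of a function `ℤ → G`, trivial near `-∞` and constant near
`∞`, and a translation: `G` embeds in it by commutators `[step function, translation]`.  Modulo the
functions of finite support `E` is `G × ℤ`.  Let `W` be the subgroup of the unrestricted wreath product
of `E` and `ℤ` generated by the translation and a function with its values at the powers of `2`: its
conjugates have almost disjoint supports, so `W` is metabelian modulo the functions of finite support,
and the commutator of two conjugates is supported at one point.  Both groups are in the class since a
subgroup of an unrestricted wreath product of a group `H` of the class and a symmetric group is in the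
class if its quotient modulo the functions of finite support is: over an infinite cyclic group it is a
directed colimit of HNN extensions of groups `U ≤ H ^ S`, `S` finite, and these have homomorphisms to the
wreath product of `H` and the symmetric group of `S` which are injective on `U`.
-/

set_option autoImplicit false

namespace Pool.Agent.Results.MP_63c928_gt.TwoGenerators

open Pool.Agent.Y462.SS Pool.Agent.Q152.WP Pool.Agent.Q152.EM

/-- Let `C` be a class of groups with the closure properties `Closed C` and `ExtClosed C` which contains
all metabelian groups.  For every sequence of countable groups `D n` of `C` there is a group `W` of `C`
with two generators in which all groups `D n` embed; it is torsion-free if all `D n` are.  (With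
`D n = G` for all `n`: every countable group of `C` embeds in a `2`-generated group of `C`.) -/
theorem result (C : ∀ (G : Type) [Group G], Prop) (hC : Closed C) (hE : ExtClosed C)
    (hM : ∀ (G : Type) [Group G], Metab G → C G) (D : ℕ → Type) [∀ n, Group (D n)]
    (hD : ∀ n, Countable (D n)) (hCD : ∀ n, C (D n)) :
    ∃ (W : Type) (_ : Group W) (a b : W), C W ∧ Subgroup.closure {a, b} = ⊤ ∧
      (∀ n, ∃ k : D n →* W, Function.Injective k) ∧
      ((∀ n, ∀ u : D n, IsOfFinOrder u → u = 1) → ∀ u : W, IsOfFinOrder u → u = 1) :=
  embed_family hC hE hM D hD hCD

end Pool.Agent.Results.MP_63c928_gt.TwoGenerators
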